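import Mathlib
import Pool.Agent.Q183.Lev.Inf

set_option autoImplicit false

/-!
# A graph matchbox manifold at infinite level containing leaves of every finite level

The leaf is the one of the bi-infinite path in the Cayley graph of `F_n` whose `j`-th edge is labelled by `b` if
`j ∈ infSet` and by `a` otherwise.
-/

namespace Pool.Agent.Results.MP_fee8af_an.AllLevelsInside

open Pool.Agent.Q183.Lev

/-- For every `n` and any two distinct free generators `a, b` of `F_n` let `M` be the closure of the leaf of the path
tree of `infSet` and `S` the union of the leaves of `M` which are not dense in `M`. Then `M` is at no finite level, the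
closure of `S` is not all of `M`, and for every `k ≥ 0` there is a leaf in `S` at level `k`. -/
theorem result (n : ℕ) (a b : Fin n) (hab : a ≠ b) :
    (∀ k, ¬ IsLevel k (closureX (leaf (pathTree a b infSet)))) ∧
    closureX {T | T ∈ closureX (leaf (pathTree a b infSet)) ∧
      closureX (leaf T) ≠ closureX (leaf (pathTree a b infSet))} ≠ closureX (leaf (pathTree a b infSet)) ∧
    ∀ k, ∃ T ∈ closureX (leaf (pathTree a b infSet)),
      closureX (leaf T) ≠ closureX (leaf (pathTree a b infSet)) ∧ IsLevel k (closureX (leaf T)) :=
  level_inf hab

end Pool.Agent.Results.MP_fee8af_an.AllLevelsInside
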